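import Mathlib
import Pool.Agent.H99.NC.PrP

set_option autoImplicit false
open Finset

/-! Moments: independence of functions of disjoint sets of labels, Hölder inequality with the exponents
`2, 6, 3`, moments from exponential tails, moments of sums. -/

namespace Pool.Agent.H65.G1

open Pool.Agent.H75.Perc Pool.Agent.H99.NC

variable {α : Type*} [DecidableEq α]

/-! ### Independence -/

/-- functions of disjoint blocks are independent -/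
theorem Ex_prod_indep (q : α → ℝ) {ι : Type*} (s : Finset ι) {E : Finset α} {B : ι → Finset α}
    (hB : ∀ i ∈ s, B i ⊆ E) (hd : ∀ i ∈ s, ∀ j ∈ s, i ≠ j → Disjoint (B i) (B j))
    (f : ι → Finset α → ℝ) :
    Ex q E (fun ω => ∏ i ∈ s, f i (ω ∩ B i)) = ∏ i ∈ s, Ex q (B i) (f i) := by
  classical
  induction s using Finset.induction_on generalizing E with
  | empty => simp
  | insert i s hi ih =>
    have hBi : B i ⊆ E := hB i (mem_insert_self _ _)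
    have hsub : ∀ j ∈ s, B j ⊆ E \ B i := by
      intro j hj x hx
      refine mem_sdiff.2 ⟨hB j (mem_insert_of_mem hj) hx, fun hx' => ?_⟩
      exact disjoint_left.1 (hd i (mem_insert_self _ _) j (mem_insert_of_mem hj)
        (fun h => hi (h ▸ hj))) hx' hx
    have h1 := ih (E := E \ B i) hsub
      (fun j hj k hk hjk => hd j (mem_insert_of_mem hj) k (mem_insert_of_mem hk) hjk)
    have h2 := Ex_split_mul q hBi (f i) (fun ω => ∏ j ∈ s, f j (ω ∩ B j))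
    rw [prod_insert hi, ← h1, ← h2]
    refine Ex_congr fun ω _ => ?_
    rw [prod_insert hi]
    congr 1
    refine prod_congr rfl fun j hj => ?_
    have : (ω \ B i) ∩ B j = ω ∩ B j := by
      ext x
      rw [mem_inter, mem_sdiff, mem_inter]
      exact ⟨fun h => ⟨h.1.1, h.2⟩, fun h => ⟨⟨h.1, (mem_sdiff.1 (hsub j hj h.2)).2⟩, h.2⟩⟩
    rw [this]

/-- the same for functions which only depend on the trace on their block -/
theorem Ex_prod_local (q : α → ℝ) {ι : Type*} (s : Finset ι) {E : Finset α} {B : ι → Finset α}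
    (hB : ∀ i ∈ s, B i ⊆ E) (hd : ∀ i ∈ s, ∀ j ∈ s, i ≠ j → Disjoint (B i) (B j))
    (f : ι → Finset α → ℝ) (hf : ∀ i ∈ s, ∀ ω ⊆ E, f i ω = f i (ω ∩ B i)) :
    Ex q E (fun ω => ∏ i ∈ s, f i ω) = ∏ i ∈ s, Ex q E (f i) := by
  have h1 : Ex q E (fun ω => ∏ i ∈ s, f i ω) = Ex q E (fun ω => ∏ i ∈ s, f i (ω ∩ B i)) :=
    Ex_congr fun ω hω => prod_congr rfl fun i hi => hf i hi ω hω
  rw [h1, Ex_prod_indep q s hB hd f]
  refine prod_congr rfl fun i hi => ?_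
  rw [← Ex_restrict q (hB i hi) (f i)]
  exact Ex_congr fun ω hω => (hf i hi ω hω).symm

/-! ### Hölder -/

/-- Hölder inequality -/
theorem Ex_holder {q : α → ℝ} (hq : Pb q) (E : Finset α) {r s : ℝ} (hrs : r.HolderConjugate s)
    {f g : Finset α → ℝ} (hf : ∀ ω ⊆ E, 0 ≤ f ω) (hg : ∀ ω ⊆ E, 0 ≤ g ω) :
    Ex q E (fun ω => f ω * g ω) ≤
      Ex q E (fun ω => f ω ^ r) ^ (1 / r) * Ex q E (fun ω => g ω ^ s) ^ (1 / s) := by
  unfold Ex
  have hr := hrs.pos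
  have hs := hrs.symm.pos
  have h := Real.inner_le_Lp_mul_Lq_of_nonneg E.powerset (p := r) (q := s)
    (f := fun ω => wt q E ω ^ (1 / r) * f ω) (g := fun ω => wt q E ω ^ (1 / s) * g ω) hrs
    (fun ω hω => mul_nonneg (Real.rpow_nonneg (wt_nonneg hq E ω) _) (hf ω (mem_powerset.1 hω)))
    (fun ω hω => mul_nonneg (Real.rpow_nonneg (wt_nonneg hq E ω) _) (hg ω (mem_powerset.1 hω)))
  have e1 : ∀ (t : ℝ) (F : Finset α → ℝ), 0 < t → (∀ ω ⊆ E, 0 ≤ F ω) →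
      ∑ ω ∈ E.powerset, (wt q E ω ^ (1 / t) * F ω) ^ t = ∑ ω ∈ E.powerset, wt q E ω * F ω ^ t := by
    intro t F ht hF
    refine sum_congr rfl fun ω hω => ?_
    rw [Real.mul_rpow (Real.rpow_nonneg (wt_nonneg hq E ω) _) (hF ω (mem_powerset.1 hω)),
      ← Real.rpow_mul (wt_nonneg hq E ω), one_div_mul_cancel ht.ne', Real.rpow_one]
  rw [e1 r f hr hf, e1 s g hs hg] at h
  refine le_trans (le_of_eq (sum_congr rfl fun ω _ => ?_)) h
  have hw := wt_nonneg hq E ω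
  have h3 : wt q E ω ^ (1 / r) * wt q E ω ^ (1 / s) = wt q E ω := by
    rcases hw.lt_or_eq with h0 | h0
    · rw [← Real.rpow_add h0]
      have : 1 / r + 1 / s = 1 := by
        have := hrs.inv_add_inv_eq_one
        rwa [one_div, one_div]
      rw [this, Real.rpow_one]
    · rw [← h0, Real.zero_rpow (by positivity), zero_mul]
  calc wt q E ω * (f ω * g ω) = (wt q E ω ^ (1 / r) * wt q E ω ^ (1 / s)) * (f ω * g ω) := by rw [h3]
    _ = _ := by ring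

/-- Hölder inequality with the exponents `2, 6, 3` -/
theorem Ex_holder3 {q : α → ℝ} (hq : Pb q) (E : Finset α) {f g h : Finset α → ℝ}
    (hf : ∀ ω ⊆ E, 0 ≤ f ω) (hg : ∀ ω ⊆ E, 0 ≤ g ω) (hh : ∀ ω ⊆ E, 0 ≤ h ω) :
    Ex q E (fun ω => f ω * g ω * h ω) ≤
      Ex q E (fun ω => f ω ^ 2) ^ (1 / 2 : ℝ) * Ex q E (fun ω => g ω ^ 6) ^ (1 / 6 : ℝ) *
        Ex q E (fun ω => h ω ^ 3) ^ (1 / 3 : ℝ) := by
  have c1 : (3 / 2 : ℝ).HolderConjugate 3 := Real.holderConjugate_iff.2 ⟨by norm_num, by norm_num⟩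
  have c2 : (4 / 3 : ℝ).HolderConjugate 4 := Real.holderConjugate_iff.2 ⟨by norm_num, by norm_num⟩
  have h1 := Ex_holder hq E c1 (f := fun ω => f ω * g ω) (g := h)
    (fun ω hω => mul_nonneg (hf ω hω) (hg ω hω)) hh
  have h2 := Ex_holder hq E c2 (f := fun ω => f ω ^ (3 / 2 : ℝ)) (g := fun ω => g ω ^ (3 / 2 : ℝ))
    (fun ω hω => Real.rpow_nonneg (hf ω hω) _) (fun ω hω => Real.rpow_nonneg (hg ω hω) _)
  have e1 : Ex q E (fun ω => (f ω * g ω) ^ (3 / 2 : ℝ)) =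
      Ex q E (fun ω => f ω ^ (3 / 2 : ℝ) * g ω ^ (3 / 2 : ℝ)) :=
    Ex_congr fun ω hω => Real.mul_rpow (hf ω hω) (hg ω hω)
  have e2 : Ex q E (fun ω => (f ω ^ (3 / 2 : ℝ)) ^ (4 / 3 : ℝ)) = Ex q E (fun ω => f ω ^ 2) := by
    refine Ex_congr fun ω hω => ?_
    rw [← Real.rpow_mul (hf ω hω)]
    norm_num
  have e3 : Ex q E (fun ω => (g ω ^ (3 / 2 : ℝ)) ^ (4 : ℝ)) = Ex q E (fun ω => g ω ^ 6) := by
    refine Ex_congr fun ω hω => ?_
    rw [← Real.rpow_mul (hg ω hω)]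
    norm_num
  have e4 : Ex q E (fun ω => h ω ^ (3 : ℝ)) = Ex q E (fun ω => h ω ^ 3) := by
    refine Ex_congr fun ω hω => ?_
    norm_num
  rw [e2, e3] at h2
  rw [e1, e4] at h1
  have n2 : 0 ≤ Ex q E (fun ω => f ω ^ 2) := Ex_nonneg hq fun ω hω => pow_nonneg (hf ω hω) _
  have n6 : 0 ≤ Ex q E (fun ω => g ω ^ 6) := Ex_nonneg hq fun ω hω => pow_nonneg (hg ω hω) _
  have n3 : 0 ≤ Ex q E (fun ω => h ω ^ 3) := Ex_nonneg hq fun ω hω => pow_nonneg (hh ω hω) _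
  have n0 : 0 ≤ Ex q E (fun ω => f ω ^ (3 / 2 : ℝ) * g ω ^ (3 / 2 : ℝ)) :=
    Ex_nonneg hq fun ω hω => mul_nonneg (Real.rpow_nonneg (hf ω hω) _) (Real.rpow_nonneg (hg ω hω) _)
  have h3 : Ex q E (fun ω => f ω ^ (3 / 2 : ℝ) * g ω ^ (3 / 2 : ℝ)) ^ (1 / (3 / 2) : ℝ) ≤
      Ex q E (fun ω => f ω ^ 2) ^ (1 / 2 : ℝ) * Ex q E (fun ω => g ω ^ 6) ^ (1 / 6 : ℝ) := by
    refine (Real.rpow_le_rpow n0 h2 (by norm_num)).trans (le_of_eq ?_)
    rw [Real.mul_rpow (Real.rpow_nonneg n2 _) (Real.rpow_nonneg n6 _), ← Real.rpow_mul n2,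
      ← Real.rpow_mul n6]
    norm_num
  exact h1.trans (mul_le_mul_of_nonneg_right h3 (Real.rpow_nonneg n3 _))

/-- **Hölder inequality for a cell**: independent functions `Y i` of disjoint blocks -/
theorem Ex_cell {q : α → ℝ} (hq : Pb q) {m : ℕ} {E : Finset α} {B : Fin m → Finset α}
    (hB : ∀ i, B i ⊆ E) (hd : ∀ i j, i ≠ j → Disjoint (B i) (B j))
    {f g : Finset α → ℝ} {Y : Fin m → Finset α → ℝ} (hf : ∀ ω ⊆ E, 0 ≤ f ω) (hg : ∀ ω ⊆ E, 0 ≤ g ω)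
    (hY : ∀ i, ∀ ω ⊆ E, 0 ≤ Y i ω) (hYB : ∀ i, ∀ ω ⊆ E, Y i ω = Y i (ω ∩ B i))
    {A G : ℝ} {D : Fin m → ℝ} (hA : Ex q E (fun ω => f ω ^ 2) ≤ A)
    (hG : Ex q E (fun ω => g ω ^ 6) ≤ G) (hD : ∀ i, Ex q E (fun ω => Y i ω ^ 3) ≤ D i) :
    Ex q E (fun ω => f ω * g ω * ∏ i, Y i ω) ≤
      A ^ (1 / 2 : ℝ) * G ^ (1 / 6 : ℝ) * ∏ i, D i ^ (1 / 3 : ℝ) := by
  have n2 : 0 ≤ Ex q E (fun ω => f ω ^ 2) := Ex_nonneg hq fun ω hω => pow_nonneg (hf ω hω) _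
  have n6 : 0 ≤ Ex q E (fun ω => g ω ^ 6) := Ex_nonneg hq fun ω hω => pow_nonneg (hg ω hω) _
  have nY : ∀ i, 0 ≤ Ex q E (fun ω => Y i ω ^ 3) := fun i =>
    Ex_nonneg hq fun ω hω => pow_nonneg (hY i ω hω) _
  refine (Ex_holder3 hq E (h := fun ω => ∏ i, Y i ω) hf hg
    (fun ω hω => prod_nonneg fun i _ => hY i ω hω)).trans ?_
  have e1 : Ex q E (fun ω => (∏ i, Y i ω) ^ 3) = ∏ i, Ex q E (fun ω => Y i ω ^ 3) := by
    rw [← Ex_prod_local q univ (fun i _ => hB i) (fun i _ j _ hij => hd i j hij)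
      (fun i ω => Y i ω ^ 3) (fun i _ ω hω => congrArg (fun t : ℝ => t ^ 3) (hYB i ω hω))]
    refine Ex_congr fun ω _ => ?_
    rw [prod_pow]
  rw [e1, ← Real.finsetProd_rpow univ _ (fun i _ => nY i)]
  have hA0 := n2.trans hA
  have hG0 := n6.trans hG
  refine mul_le_mul (mul_le_mul (Real.rpow_le_rpow n2 hA (by norm_num))
    (Real.rpow_le_rpow n6 hG (by norm_num)) (Real.rpow_nonneg n6 _) (Real.rpow_nonneg hA0 _)) ?_
    (prod_nonneg fun i _ => Real.rpow_nonneg (nY i) _)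
    (mul_nonneg (Real.rpow_nonneg hA0 _) (Real.rpow_nonneg hG0 _))
  exact prod_le_prod (fun i _ => Real.rpow_nonneg (nY i) _)
    fun i _ => Real.rpow_le_rpow (nY i) (hD i) (by norm_num)

/-! ### Moments from tails -/

/-- the constant in `moment_of_tail` -/
noncomputable def Mc (p : ℕ) (a : ℝ) : ℝ := ∑' n : ℕ, ((n + 1 : ℕ) : ℝ) ^ p * a ^ (n + 1)

lemma summable_Mc (p : ℕ) {a : ℝ} (h0 : 0 ≤ a) (h1 : a < 1) :
    Summable (fun n : ℕ => ((n + 1 : ℕ) : ℝ) ^ p * a ^ (n + 1)) := by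
  have h := summable_pow_mul_geometric_of_norm_lt_one (R := ℝ) p (r := a)
    (by rw [Real.norm_eq_abs, abs_of_nonneg h0]; exact h1)
  exact (summable_nat_add_iff 1).2 h

lemma Mc_nonneg (p : ℕ) {a : ℝ} (h0 : 0 ≤ a) : 0 ≤ Mc p a :=
  tsum_nonneg fun n => by positivity

/-- a power as a sum of increments -/
lemma pow_le_sum (p K N : ℕ) (hK : K ≤ N) (hp : 1 ≤ p) :
    (K : ℝ) ^ p ≤ ∑ n ∈ range N, ((n + 1 : ℕ) : ℝ) ^ p * ind (n + 1 ≤ K) := by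
  rcases Nat.eq_zero_or_pos K with rfl | h0
  · rw [Nat.cast_zero, zero_pow (by omega)]
    exact sum_nonneg fun n _ => mul_nonneg (by positivity) (ind_nonneg _)
  · have h1 : ((K - 1 + 1 : ℕ) : ℝ) ^ p * ind (K - 1 + 1 ≤ K) ≤
        ∑ n ∈ range N, ((n + 1 : ℕ) : ℝ) ^ p * ind (n + 1 ≤ K) :=
      single_le_sum (f := fun n : ℕ => ((n + 1 : ℕ) : ℝ) ^ p * ind (n + 1 ≤ K))
        (fun n _ => mul_nonneg (by positivity) (ind_nonneg _)) (mem_range.2 (by omega))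
    rw [ind_true (by omega), mul_one, Nat.sub_add_cancel h0] at h1
    exact h1

/-- **Moments from exponential tails.** -/
theorem moment_of_tail {q : α → ℝ} (hq : Pb q) (E : Finset α) (K : Finset α → ℕ) {C a : ℝ}
    (h0 : 0 ≤ a) (h1 : a < 1)
    (hK : ∀ n : ℕ, 1 ≤ n → PrP q E (fun ω => n ≤ K ω) ≤ C * a ^ n) {p : ℕ} (hp : 1 ≤ p) :
    Ex q E (fun ω => (K ω : ℝ) ^ p) ≤ C * Mc p a := by
  classical
  obtain ⟨N, hN⟩ : ∃ N, ∀ ω ⊆ E, K ω ≤ N :=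
    ⟨E.powerset.sup K, fun ω hω => Finset.le_sup (f := K) (mem_powerset.2 hω)⟩
  have s1 : Ex q E (fun ω => (K ω : ℝ) ^ p) ≤
      Ex q E (fun ω => ∑ n ∈ range N, ((n + 1 : ℕ) : ℝ) ^ p * ind (n + 1 ≤ K ω)) :=
    Ex_mono hq fun ω hω => pow_le_sum p (K ω) N (hN ω hω) hp
  have s2 : Ex q E (fun ω => ∑ n ∈ range N, ((n + 1 : ℕ) : ℝ) ^ p * ind (n + 1 ≤ K ω)) =
      ∑ n ∈ range N, ((n + 1 : ℕ) : ℝ) ^ p * PrP q E (fun ω => n + 1 ≤ K ω) := by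
    rw [Ex_sum]
    exact sum_congr rfl fun n _ => Ex_smul _ _ _ _
  have hC : 0 ≤ C * a := by
    have := (PrP_nonneg hq E (fun ω => 1 ≤ K ω)).trans (hK 1 le_rfl)
    rwa [pow_one] at this
  have s3 : ∑ n ∈ range N, ((n + 1 : ℕ) : ℝ) ^ p * PrP q E (fun ω => n + 1 ≤ K ω) ≤
      ∑ n ∈ range N, C * (((n + 1 : ℕ) : ℝ) ^ p * a ^ (n + 1)) := by
    refine sum_le_sum fun n _ => ?_
    have := mul_le_mul_of_nonneg_left (hK (n + 1) (by omega))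
      (show (0 : ℝ) ≤ ((n + 1 : ℕ) : ℝ) ^ p by positivity)
    linarith
  rcases h0.lt_or_eq with ha | ha
  · have hC0 : 0 ≤ C := nonneg_of_mul_nonneg_left hC ha
    rw [← mul_sum] at s3
    have s4 : ∑ n ∈ range N, (((n + 1 : ℕ) : ℝ) ^ p * a ^ (n + 1)) ≤ Mc p a :=
      (summable_Mc p h0 h1).sum_le_tsum _ (fun n _ => by positivity)
    linarith [mul_le_mul_of_nonneg_left s4 hC0]
  · subst ha
    have e : ∀ n : ℕ, ((n + 1 : ℕ) : ℝ) ^ p * (0 : ℝ) ^ (n + 1) = 0 := fun n => by simp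
    have e2 : Mc p 0 = 0 := by
      unfold Mc
      simp only [e, tsum_zero]
    rw [e2, mul_zero]
    have e3 : ∑ n ∈ range N, C * (((n + 1 : ℕ) : ℝ) ^ p * (0 : ℝ) ^ (n + 1)) = 0 :=
      sum_eq_zero fun n _ => by rw [e, mul_zero]
    linarith

/-- moments of `1 + K` -/
lemma one_add_pow_le (K : ℝ) (hK : 0 ≤ K) (p : ℕ) : (1 + K) ^ p ≤ 2 ^ p * (1 + K ^ p) := by
  rcases le_total K 1 with h | h
  · calc (1 + K) ^ p ≤ 2 ^ p := pow_le_pow_left₀ (by linarith) (by linarith) p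
      _ ≤ 2 ^ p * (1 + K ^ p) := by
        have : 0 ≤ K ^ p := pow_nonneg hK p
        nlinarith [show (0 : ℝ) < 2 ^ p by positivity]
  · calc (1 + K) ^ p ≤ (2 * K) ^ p := pow_le_pow_left₀ (by linarith) (by linarith) p
      _ = 2 ^ p * K ^ p := mul_pow _ _ _
      _ ≤ 2 ^ p * (1 + K ^ p) := by nlinarith [show (0 : ℝ) < 2 ^ p by positivity]

/-- **Moments of a sum** -/
theorem moment_sum {q : α → ℝ} (hq : Pb q) (E : Finset α) {ι : Type*} (s : Finset ι)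
    (K : ι → Finset α → ℝ) (hK0 : ∀ i ∈ s, ∀ ω ⊆ E, 0 ≤ K i ω) {p : ℕ} {M : ℝ}
    (hK : ∀ i ∈ s, Ex q E (fun ω => K i ω ^ (p + 1)) ≤ M) :
    Ex q E (fun ω => (∑ i ∈ s, K i ω) ^ (p + 1)) ≤ (s.card : ℝ) ^ (p + 1) * M := by
  rcases s.eq_empty_or_nonempty with rfl | hs
  · simp
  have hc : (0 : ℝ) < s.card := by exact_mod_cast card_pos.2 hs
  have h1 : ∀ ω ⊆ E, (∑ i ∈ s, K i ω) ^ (p + 1) ≤ (s.card : ℝ) ^ p * ∑ i ∈ s, K i ω ^ (p + 1) := by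
    intro ω hω
    have := pow_sum_div_card_le_sum_pow (s := s) (f := fun i => K i ω)
      (fun i hi => hK0 i hi ω hω) p
    rwa [div_le_iff₀ (by positivity), mul_comm] at this
  refine (Ex_mono hq h1).trans ?_
  rw [Ex_smul, Ex_sum, pow_succ, mul_assoc]
  refine mul_le_mul_of_nonneg_left ?_ (by positivity)
  rw [← nsmul_eq_mul]
  exact sum_le_card_nsmul _ _ _ hK

end Pool.Agent.H65.G1
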