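import Mathlib
import Pool.Agent.H75.TwoArm.Defs
import Pool.Agent.H75.Perc.Rect

set_option autoImplicit false
open Finset

/-! # Winding numbers on the corner lattice

The lattice points are the corners, the unit cell with lower left corner `s` is the tile `s` if
`s.1 + s.2` is odd, the vertex `s / 2` if both coordinates are even, and the face `(s + (1,1)) / 2` if both
are odd. A strand is a lattice path which keeps the vertex cells (or an open tile) on its left and the face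
cells (or a closed tile) on its right.

`Wd L p` : winding number around the lattice point `p` of the closed chain `L` of steps between
neighbouring cells. `Wd_step`: its change along a lattice step. `no_two` : two disjoint strands which cross
an annulus of tiles in the same direction are not joined in the annulus both by an open path and by a dual
path. -/

namespace Pool.Agent.H65.G1

open Pool.Agent.H75.Perc Pool.Agent.H75.TwoArm

/-- cell on the left of the lattice step `p → p'` -/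
def LC (p p' : ℤ × ℤ) : ℤ × ℤ :=
  if p'.1 = p.1 + 1 then p else if p'.2 = p.2 + 1 then (p.1 - 1, p.2)
  else if p'.1 = p.1 - 1 then (p.1 - 1, p.2 - 1) else (p.1, p.2 - 1)

/-- cell on the right of the lattice step `p → p'` -/
def RC (p p' : ℤ × ℤ) : ℤ × ℤ :=
  if p'.1 = p.1 + 1 then (p.1, p.2 - 1) else if p'.2 = p.2 + 1 then p
  else if p'.1 = p.1 - 1 then (p.1 - 1, p.2) else (p.1 - 1, p.2 - 1)

/-- crossing of the horizontal ray from `p` to the right by the step `s → s'` between cells -/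
def ry (s s' p : ℤ × ℤ) : ℤ :=
  if s'.1 = s.1 ∧ s'.2 = s.2 + 1 ∧ p.2 = s'.2 ∧ p.1 ≤ s.1 then 1
  else if s'.1 = s.1 ∧ s'.2 = s.2 - 1 ∧ p.2 = s.2 ∧ p.1 ≤ s.1 then -1 else 0

/-- crossing of the lattice step `p → p'` by the step `s → s'` between cells (from right to left: `1`) -/
def cx (s s' p p' : ℤ × ℤ) : ℤ :=
  (if s = RC p p' ∧ s' = LC p p' then 1 else 0) - (if s = LC p p' ∧ s' = RC p p' then 1 else 0)

/-- indicator of the half row of cells to the right of `p` -/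
def gg (p s : ℤ × ℤ) : ℤ := if s.2 = p.2 ∧ p.1 ≤ s.1 then 1 else 0

lemma ry_h {s s' : ℤ × ℤ} (p : ℤ × ℤ) :
    ry s s' p - ry s s' (p.1 + 1, p.2) = cx s s' p (p.1 + 1, p.2) := by
  obtain ⟨p1, p2⟩ := p
  obtain ⟨s1, s2⟩ := s
  obtain ⟨t1, t2⟩ := s'
  unfold ry cx LC RC
  simp only [Prod.mk.injEq, if_true]
  split_ifs <;> omega

lemma cells_v (p : ℤ × ℤ) : LC p (p.1, p.2 + 1) = (p.1 - 1, p.2) ∧ RC p (p.1, p.2 + 1) = p := by
  have h : ¬ (p.1 = p.1 + 1) := by omega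
  constructor
  · unfold LC
    simp only
    rw [if_neg h]
    exact if_pos trivial
  · unfold RC
    simp only
    rw [if_neg h]
    exact if_pos trivial

lemma ry_v {s s' : ℤ × ℤ} (hu : IsUnit4 (s' - s)) (p : ℤ × ℤ) :
    ry s s' p - ry s s' (p.1, p.2 + 1) = cx s s' p (p.1, p.2 + 1) + (gg p s' - gg p s) := by
  have h := unit_cases hu
  unfold cx
  rw [(cells_v p).1, (cells_v p).2]
  obtain ⟨p1, p2⟩ := p
  obtain ⟨s1, s2⟩ := s
  obtain ⟨t1, t2⟩ := s'
  unfold ry gg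
  simp only [Prod.mk.injEq] at h ⊢
  split_ifs <;> omega

/-- winding number of the chain `L` around the lattice point `p` -/
def Wd (L : List ((ℤ × ℤ) × (ℤ × ℤ))) (p : ℤ × ℤ) : ℤ := (L.map fun st => ry st.1 st.2 p).sum

/-- closed chain of unit steps -/
def Clo (L : List ((ℤ × ℤ) × (ℤ × ℤ))) : Prop :=
  (∀ st ∈ L, IsUnit4 (st.2 - st.1)) ∧ ∀ g : ℤ × ℤ → ℤ, (L.map fun st => g st.2 - g st.1).sum = 0

/-- number of crossings of a lattice step -/
def Cx (L : List ((ℤ × ℤ) × (ℤ × ℤ))) (p p' : ℤ × ℤ) : ℤ := (L.map fun st => cx st.1 st.2 p p').sum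

lemma sum_sub_list {α : Type*} (L : List α) (f g : α → ℤ) :
    (L.map f).sum - (L.map g).sum = (L.map fun a => f a - g a).sum := by
  induction L with
  | nil => simp
  | cons a L ih => simp only [List.map_cons, List.sum_cons]; rw [← ih]; ring

lemma sum_add_list {α : Type*} (L : List α) (f g : α → ℤ) :
    (L.map fun a => f a + g a).sum = (L.map f).sum + (L.map g).sum := by
  induction L with
  | nil => simp
  | cons a L ih => simp only [List.map_cons, List.sum_cons]; rw [ih]; ring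

lemma Wd_h (L : List ((ℤ × ℤ) × (ℤ × ℤ))) (p : ℤ × ℤ) :
    Wd L p - Wd L (p.1 + 1, p.2) = Cx L p (p.1 + 1, p.2) := by
  unfold Wd Cx
  rw [sum_sub_list]
  congr 1
  exact List.map_congr_left fun st _ => ry_h p

lemma Wd_v {L : List ((ℤ × ℤ) × (ℤ × ℤ))} (hL : Clo L) (p : ℤ × ℤ) :
    Wd L p - Wd L (p.1, p.2 + 1) = Cx L p (p.1, p.2 + 1) := by
  unfold Wd Cx
  rw [sum_sub_list]
  have h1 : (L.map fun st => ry st.1 st.2 p - ry st.1 st.2 (p.1, p.2 + 1)) =
      L.map fun st => cx st.1 st.2 p (p.1, p.2 + 1) + (gg p st.2 - gg p st.1) :=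
    List.map_congr_left fun st hst => ry_v (hL.1 st hst) p
  rw [h1, sum_add_list, hL.2 (gg p), add_zero]

lemma cx_swap {p p' : ℤ × ℤ} (h : IsUnit4 (p' - p)) : LC p' p = RC p p' ∧ RC p' p = LC p p' := by
  have h1 := unit_cases h
  obtain ⟨p1, p2⟩ := p
  obtain ⟨q1, q2⟩ := p'
  unfold LC RC
  simp only at h1 ⊢
  rcases h1 with ⟨h, h'⟩ | ⟨h, h'⟩ | ⟨h, h'⟩ | ⟨h, h'⟩ <;> subst h h' <;>
    split_ifs <;> first | (exfalso; omega) | (constructor <;> (ext <;> simp))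

lemma Cx_swap {L : List ((ℤ × ℤ) × (ℤ × ℤ))} {p p' : ℤ × ℤ} (h : IsUnit4 (p' - p)) :
    Cx L p' p = - Cx L p p' := by
  obtain ⟨h1, h2⟩ := cx_swap h
  have h3 : ∀ st : (ℤ × ℤ) × (ℤ × ℤ), cx st.1 st.2 p' p = 0 - cx st.1 st.2 p p' := by
    intro st
    unfold cx
    rw [h1, h2]
    ring
  unfold Cx
  have h4 : (L.map fun st => cx st.1 st.2 p' p) = L.map fun st => 0 - cx st.1 st.2 p p' :=
    List.map_congr_left fun st _ => h3 st
  rw [h4, ← sum_sub_list]
  simp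

/-- **Change of the winding number along a lattice step.** -/
lemma Wd_step {L : List ((ℤ × ℤ) × (ℤ × ℤ))} (hL : Clo L) {p p' : ℤ × ℤ} (h : IsUnit4 (p' - p)) :
    Wd L p - Wd L p' = Cx L p p' := by
  have h1 := unit_cases h
  rcases h1 with ⟨h2, h3⟩ | ⟨h2, h3⟩ | ⟨h2, h3⟩ | ⟨h2, h3⟩
  · have e : p' = (p.1 + 1, p.2) := Prod.ext h2 h3
    rw [e]; exact Wd_h L p
  · have e : p' = (p.1, p.2 + 1) := Prod.ext h2 h3
    rw [e]; exact Wd_v hL p
  · have e : p = (p'.1 + 1, p'.2) := Prod.ext (by simp only; omega) (by simp only; omega)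
    have h4 := Wd_h L p'
    rw [← e] at h4
    have h5 := Cx_swap (L := L) h
    linarith
  · have e : p = (p'.1, p'.2 + 1) := Prod.ext (by simp only; omega) (by simp only; omega)
    have h4 := Wd_v hL p'
    rw [← e] at h4
    have h5 := Cx_swap (L := L) h
    linarith

/-! ### Strand steps -/

/-- the cell of a vertex -/
def vc (v : ℤ × ℤ) : ℤ × ℤ := (2 * v.1, 2 * v.2)

/-- the cell of a face -/
def fc (f : ℤ × ℤ) : ℤ × ℤ := (2 * f.1 - 1, 2 * f.2 - 1)

lemma nx_unit (ω : Finset (ℤ × ℤ)) (c : ℤ × ℤ) : IsUnit4 (nx ω c - c) := by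
  rw [nx_eq ω c (ty c) (by
    rcases ty_cases c with ⟨h, -⟩ | ⟨h, -⟩ | ⟨h, -⟩ | ⟨h, -⟩ <;> rw [h] <;> rfl)]
  rw [add_sub_cancel_left]
  exact isUnit4_dir _

/-- the cells beside a strand step -/
lemma cells_nx (ω : Finset (ℤ × ℤ)) (c : ℤ × ℤ) :
    (lab c ∈ ω → LC c (nx ω c) = lab c ∧ RC c (nx ω c) = fc (fi c)) ∧
    (lab c ∉ ω → LC c (nx ω c) = vc (vx c) ∧ RC c (nx ω c) = lab c) := by
  unfold nx
  constructor
  · intro h
    rw [if_pos h]
    unfold LC RC fc fi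
    rcases ty_cases c with ⟨-, h1, h2, h3, h4, h5⟩ | ⟨-, h1, h2, h3, h4, h5⟩ |
      ⟨-, h1, h2, h3, h4, h5⟩ | ⟨-, h1, h2, h3, h4, h5⟩ <;> rw [h3, h5] <;> simp only <;>
      split_ifs <;> first
        | (exfalso; omega)
        | (refine ⟨?_, ?_⟩ <;> refine Prod.ext ?_ ?_ <;> simp only <;> omega)
  · intro h
    rw [if_neg h]
    unfold LC RC vc vx
    rcases ty_cases c with ⟨-, h1, h2, h3, h4, h5⟩ | ⟨-, h1, h2, h3, h4, h5⟩ |
      ⟨-, h1, h2, h3, h4, h5⟩ | ⟨-, h1, h2, h3, h4, h5⟩ <;> rw [h3, h4] <;> simp only <;>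
      split_ifs <;> first
        | (exfalso; omega)
        | (refine ⟨?_, ?_⟩ <;> refine Prod.ext ?_ ?_ <;> simp only <;> omega)

/-- coordinates of the tile, the vertex and the face of a corner -/
lemma lab_coord (c : ℤ × ℤ) :
    (lab c).1 ≤ c.1 ∧ c.1 ≤ (lab c).1 + 1 ∧ (lab c).2 ≤ c.2 ∧ c.2 ≤ (lab c).2 + 1 ∧
    ((lab c).1 + (lab c).2) % 2 = 1 ∧ IsUnit4 (lab c - vc (vx c)) ∧ IsUnit4 (fc (fi c) - lab c) := by
  rcases ty_cases c with ⟨-, h1, h2, h3, h4, h5⟩ | ⟨-, h1, h2, h3, h4, h5⟩ |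
      ⟨-, h1, h2, h3, h4, h5⟩ | ⟨-, h1, h2, h3, h4, h5⟩ <;> rw [h3] <;> simp only <;>
    unfold IsUnit4 vc vx fc fi <;> simp only [Prod.ext_iff, Prod.fst_sub, Prod.snd_sub] <;> omega

/-- a corner is determined by its tile and its vertex -/
lemma corner_vx {c c' : ℤ × ℤ} (h : lab c = lab c') (h' : vx c = vx c') : c = c' := by
  rcases ty_cases c with ⟨-, h1, h2, h3, -⟩ | ⟨-, h1, h2, h3, -⟩ | ⟨-, h1, h2, h3, -⟩ |
      ⟨-, h1, h2, h3, -⟩ <;>
  rcases ty_cases c' with ⟨-, g1, g2, g3, -⟩ | ⟨-, g1, g2, g3, -⟩ | ⟨-, g1, g2, g3, -⟩ |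
      ⟨-, g1, g2, g3, -⟩ <;> rw [h3, g3] at h <;> unfold vx at h' <;>
    simp only [Prod.ext_iff] at h h' ⊢ <;> omega

/-- a corner is determined by its tile and its face -/
lemma corner_fi {c c' : ℤ × ℤ} (h : lab c = lab c') (h' : fi c = fi c') : c = c' := by
  rcases ty_cases c with ⟨-, h1, h2, h3, -⟩ | ⟨-, h1, h2, h3, -⟩ | ⟨-, h1, h2, h3, -⟩ |
      ⟨-, h1, h2, h3, -⟩ <;>
  rcases ty_cases c' with ⟨-, g1, g2, g3, -⟩ | ⟨-, g1, g2, g3, -⟩ | ⟨-, g1, g2, g3, -⟩ |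
      ⟨-, g1, g2, g3, -⟩ <;> rw [h3, g3] at h <;> unfold fi at h' <;>
    simp only [Prod.ext_iff] at h h' ⊢ <;> omega

end Pool.Agent.H65.G1
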