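import Mathlib
import Pool.Agent.H65.G1.Wind
import Pool.Agent.H65.Four2.Pub
import Pool.Agent.H75.TwoArm.Strand
import Pool.Agent.Q1.M6b.FarEnv

set_option autoImplicit false
open Finset

/-! # Uniqueness of the far entrance

`no_two`: two disjoint strands which cross an annulus of tiles in the same direction are not joined in the
annulus both by an open path and by a dual path (winding number of the closed chain which follows the two
paths and crosses both strands). `far_unique`: without four arms (of either colour type) between two boxes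
there is at most one strand which enters the inner box from outside of the outer box. -/

namespace Pool.Agent.H65.G1

open Pool.Agent.H75.Perc Pool.Agent.H75.TwoArm Pool.Agent.H47.NC Pool.Agent.H65.Four2

/-- every step of the chain has one of its two cells in `A` -/
def InA (A : Finset (ℤ × ℤ)) (L : List ((ℤ × ℤ) × (ℤ × ℤ))) : Prop := ∀ st ∈ L, st.1 ∈ A ∨ st.2 ∈ A

lemma Cx_append (L L' : List ((ℤ × ℤ) × (ℤ × ℤ))) (p p' : ℤ × ℤ) :
    Cx (L ++ L') p p' = Cx L p p' + Cx L' p p' := by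
  unfold Cx; rw [List.map_append, List.sum_append]

lemma Cx_zero {A : Finset (ℤ × ℤ)} {L : List ((ℤ × ℤ) × (ℤ × ℤ))} (hA : InA A L) {p p' : ℤ × ℤ}
    (h1 : LC p p' ∉ A) (h2 : RC p p' ∉ A) : Cx L p p' = 0 := by
  unfold Cx
  have h : ∀ st ∈ L, cx st.1 st.2 p p' = 0 := by
    intro st hst
    have h3 := hA st hst
    unfold cx
    rw [if_neg, if_neg]
    · norm_num
    · rintro ⟨h4, h5⟩
      rw [h4, h5] at h3
      exact h3.elim h1 h2
    · rintro ⟨h4, h5⟩
      rw [h4, h5] at h3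
      exact h3.elim h2 h1
  rw [List.map_congr_left h]
  simp

lemma Wd_const {A : Finset (ℤ × ℤ)} {L : List ((ℤ × ℤ) × (ℤ × ℤ))} (hL : Clo L) (hA : InA A L)
    {p p' : ℤ × ℤ} (h : IsUnit4 (p' - p)) (h1 : LC p p' ∉ A) (h2 : RC p p' ∉ A) :
    Wd L p = Wd L p' := by
  have h3 := Wd_step hL h
  rw [Cx_zero hA h1 h2] at h3
  linarith

/-- chain from the cell `s` to the cell `t` which crosses the strand step of the corner `c` `κ c` times -/
structure Chn (w A : Finset (ℤ × ℤ)) (L : List ((ℤ × ℤ) × (ℤ × ℤ))) (s t : ℤ × ℤ)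
    (κ : ℤ × ℤ → ℤ) : Prop where
  unit : ∀ st ∈ L, IsUnit4 (st.2 - st.1)
  inA : InA A L
  sum : ∀ g : ℤ × ℤ → ℤ, (L.map fun st => g st.2 - g st.1).sum = g t - g s
  crs : ∀ c, Cx L c (nx w c) = κ c

lemma Chn.append {w A : Finset (ℤ × ℤ)} {L L' : List ((ℤ × ℤ) × (ℤ × ℤ))} {s t u : ℤ × ℤ}
    {κ κ' : ℤ × ℤ → ℤ} (h : Chn w A L s t κ) (h' : Chn w A L' t u κ') :
    Chn w A (L ++ L') s u (fun c => κ c + κ' c) where
  unit := by
    intro st hst
    rcases List.mem_append.1 hst with h1 | h1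
    · exact h.unit st h1
    · exact h'.unit st h1
  inA := by
    intro st hst
    rcases List.mem_append.1 hst with h1 | h1
    · exact h.inA st h1
    · exact h'.inA st h1
  sum := by
    intro g
    rw [List.map_append, List.sum_append, h.sum, h'.sum]
    ring
  crs := by
    intro c
    rw [Cx_append, h.crs, h'.crs]

lemma Chn.congr {w A : Finset (ℤ × ℤ)} {L : List ((ℤ × ℤ) × (ℤ × ℤ))} {s t : ℤ × ℤ}
    {κ κ' : ℤ × ℤ → ℤ} (h : Chn w A L s t κ) (h' : ∀ c, κ c = κ' c) : Chn w A L s t κ' where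
  unit := h.unit
  inA := h.inA
  sum := h.sum
  crs := fun c => by rw [h.crs, h']

lemma chn_nil (w A : Finset (ℤ × ℤ)) (s : ℤ × ℤ) : Chn w A [] s s (fun _ => 0) where
  unit := by intro st hst; exact absurd hst (List.not_mem_nil)
  inA := by intro st hst; exact absurd hst (List.not_mem_nil)
  sum := by intro g; simp
  crs := by intro c; unfold Cx; simp

lemma vc_ne_fc (v f : ℤ × ℤ) : vc v ≠ fc f := by
  intro h
  have := congrArg Prod.fst h
  unfold vc fc at this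
  simp only at this
  omega

lemma vc_odd (v : ℤ × ℤ) : ((vc v).1 + (vc v).2) % 2 = 0 := by
  unfold vc; simp only; omega

lemma fc_odd (f : ℤ × ℤ) : ((fc f).1 + (fc f).2) % 2 = 0 := by
  unfold fc; simp only; omega

lemma lab_odd (c : ℤ × ℤ) : ((lab c).1 + (lab c).2) % 2 = 1 := (lab_coord c).2.2.2.2.1

lemma ne_of_par {s t : ℤ × ℤ} (h : (s.1 + s.2) % 2 = 0) (h' : (t.1 + t.2) % 2 = 1) : s ≠ t := by
  intro he; rw [he] at h; omega

/-- crossings of a strand step -/
lemma cx_nx (w : Finset (ℤ × ℤ)) (s s' c : ℤ × ℤ) : cx s s' c (nx w c) =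
    if lab c ∈ w then (if s = fc (fi c) ∧ s' = lab c then 1 else 0) -
      (if s = lab c ∧ s' = fc (fi c) then 1 else 0)
    else (if s = lab c ∧ s' = vc (vx c) then 1 else 0) -
      (if s = vc (vx c) ∧ s' = lab c then 1 else 0) := by
  unfold cx
  by_cases h : lab c ∈ w
  · rw [((cells_nx w c).1 h).1, ((cells_nx w c).1 h).2, if_pos h]
  · rw [((cells_nx w c).2 h).1, ((cells_nx w c).2 h).2, if_neg h]

lemma Cx_pair (a b d p p' : ℤ × ℤ) :
    Cx [(a, b), (b, d)] p p' = cx a b p p' + cx b d p p' := by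
  unfold Cx; simp

lemma chn_pair {w A : Finset (ℤ × ℤ)} {a b d : ℤ × ℤ} (h1 : IsUnit4 (b - a)) (h2 : IsUnit4 (d - b))
    (hb : b ∈ A) : Chn w A [(a, b), (b, d)] a d
      (fun c => cx a b c (nx w c) + cx b d c (nx w c)) where
  unit := by
    intro st hst
    rcases List.mem_cons.1 hst with h | h
    · rw [h]; exact h1
    · rw [List.mem_singleton] at h
      rw [h]; exact h2
  inA := by
    intro st hst
    rcases List.mem_cons.1 hst with h | h
    · rw [h]; exact Or.inr hb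
    · rw [List.mem_singleton] at h
      rw [h]; exact Or.inl hb
  sum := by intro g; simp
  crs := fun c => Cx_pair _ _ _ _ _

lemma unit_neg {s t : ℤ × ℤ} (h : IsUnit4 (t - s)) : IsUnit4 (s - t) := by
  have := isUnit4_neg h
  rwa [neg_sub] at this

/-- step of an open path -/
lemma chn_open {w A : Finset (ℤ × ℤ)} {u v : ℤ × ℤ} (h : Ad (w ∩ A) u v) :
    ∃ L, Chn w A L (vc u) (vc v) (fun _ => 0) := by
  obtain ⟨h1, h2⟩ := h
  rw [mem_inter] at h2
  have hu := unit_cases h1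
  have e1 : IsUnit4 ((u + v) - vc u) := by
    have : (u + v) - vc u = v - u := by
      unfold vc; ext <;> simp only [Prod.fst_sub, Prod.snd_sub, Prod.fst_add, Prod.snd_add] <;> ring
    rw [this]; exact h1
  have e2 : IsUnit4 (vc v - (u + v)) := by
    have : vc v - (u + v) = v - u := by
      unfold vc; ext <;> simp only [Prod.fst_sub, Prod.snd_sub, Prod.fst_add, Prod.snd_add] <;> ring
    rw [this]; exact h1
  have hodd : ((u + v).1 + (u + v).2) % 2 = 1 := by
    simp only [Prod.fst_add, Prod.snd_add]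
    omega
  refine ⟨_, (chn_pair e1 e2 h2.2).congr fun c => ?_⟩
  have hc := lab_odd c
  have a1 : vc u ≠ lab c := ne_of_par (vc_odd u) hc
  have a2 : vc v ≠ lab c := ne_of_par (vc_odd v) hc
  have a3 : vc (vx c) ≠ u + v := ne_of_par (vc_odd _) hodd
  have a4 : fc (fi c) ≠ u + v := ne_of_par (fc_odd _) hodd
  rw [cx_nx, cx_nx]
  by_cases hl : lab c ∈ w
  · rw [if_pos hl, if_pos hl, if_neg (fun h => vc_ne_fc _ _ h.1), if_neg (fun h => a1 h.1),
      if_neg (fun h => a4 h.1.symm), if_neg (fun h => vc_ne_fc _ _ h.2)]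
    norm_num
  · have a5 : u + v ≠ lab c := fun h => hl (h ▸ h2.1)
    rw [if_neg hl, if_neg hl, if_neg (fun h => a1 h.1), if_neg (fun h => a5 h.2),
      if_neg (fun h => a5 h.1), if_neg (fun h => a3 h.1.symm)]
    norm_num

lemma chn_co {w A : Finset (ℤ × ℤ)} {u v : ℤ × ℤ} (h : Co (w ∩ A) u v) :
    ∃ L, Chn w A L (vc u) (vc v) (fun _ => 0) := by
  induction h with
  | refl => exact ⟨[], chn_nil w A _⟩
  | tail _ hbc ih =>
    obtain ⟨L, hL⟩ := ih
    obtain ⟨L', hL'⟩ := chn_open hbc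
    exact ⟨_, (hL.append hL').congr fun c => by norm_num⟩

/-- step of a dual path -/
lemma chn_dual {w A : Finset (ℤ × ℤ)} {f g : ℤ × ℤ} (h : Ad (du A w) f g) :
    ∃ L, Chn w A L (fc f) (fc g) (fun _ => 0) := by
  obtain ⟨h1, h2⟩ := h
  unfold du at h2
  rw [mem_map] at h2
  obtain ⟨l, hl, he⟩ := h2
  rw [mem_sdiff] at hl
  have he1 : l.1 + 1 = f.1 + g.1 := by
    have := congrArg Prod.fst he; simpa [sh1] using this
  have he2 : l.2 + 1 = f.2 + g.2 := by
    have := congrArg Prod.snd he; simpa [sh1] using this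
  have hu := unit_cases h1
  have e1 : IsUnit4 (l - fc f) := by
    have : l - fc f = g - f := by
      unfold fc; ext <;> simp only [Prod.fst_sub, Prod.snd_sub] <;> linarith
    rw [this]; exact h1
  have e2 : IsUnit4 (fc g - l) := by
    have : fc g - l = g - f := by
      unfold fc; ext <;> simp only [Prod.fst_sub, Prod.snd_sub] <;> linarith
    rw [this]; exact h1
  have hodd : (l.1 + l.2) % 2 = 1 := by omega
  refine ⟨_, (chn_pair e1 e2 hl.1).congr fun c => ?_⟩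
  have hc := lab_odd c
  have a1 : fc f ≠ lab c := ne_of_par (fc_odd f) hc
  have a2 : fc g ≠ lab c := ne_of_par (fc_odd g) hc
  have a3 : vc (vx c) ≠ l := ne_of_par (vc_odd _) hodd
  have a4 : fc (fi c) ≠ l := ne_of_par (fc_odd _) hodd
  rw [cx_nx, cx_nx]
  by_cases hl' : lab c ∈ w
  · have a5 : l ≠ lab c := fun h => hl.2 (h ▸ hl')
    rw [if_pos hl', if_pos hl', if_neg (fun h => a5 h.2), if_neg (fun h => a1 h.1),
      if_neg (fun h => a4 h.1.symm), if_neg (fun h => a5 h.1)]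
    norm_num
  · rw [if_neg hl', if_neg hl', if_neg (fun h => a1 h.1), if_neg (fun h => vc_ne_fc _ _ h.1.symm),
      if_neg (fun h => vc_ne_fc _ _ h.2.symm), if_neg (fun h => a3 h.1.symm)]
    norm_num

lemma chn_dco {w A : Finset (ℤ × ℤ)} {f g : ℤ × ℤ} (h : Co (du A w) f g) :
    ∃ L, Chn w A L (fc f) (fc g) (fun _ => 0) := by
  induction h with
  | refl => exact ⟨[], chn_nil w A _⟩
  | tail _ hbc ih =>
    obtain ⟨L, hL⟩ := ih
    obtain ⟨L', hL'⟩ := chn_dual hbc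
    exact ⟨_, (hL.append hL').congr fun c => by norm_num⟩

/-- crossing of a strand at a corner, from the face to the vertex -/
lemma chn_fv {w A : Finset (ℤ × ℤ)} {c0 : ℤ × ℤ} (h : lab c0 ∈ A) :
    ∃ L, Chn w A L (fc (fi c0)) (vc (vx c0)) (fun c => if c = c0 then 1 else 0) := by
  have hu := lab_coord c0
  have e1 : IsUnit4 (lab c0 - fc (fi c0)) := unit_neg hu.2.2.2.2.2.2
  have e2 : IsUnit4 (vc (vx c0) - lab c0) := unit_neg hu.2.2.2.2.2.1
  refine ⟨_, (chn_pair e1 e2 h).congr fun c => ?_⟩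
  have hc := lab_odd c
  have a1 : fc (fi c0) ≠ lab c := ne_of_par (fc_odd _) hc
  have a2 : vc (vx c0) ≠ lab c := ne_of_par (vc_odd _) hc
  have a3 : fc (fi c) ≠ lab c0 := ne_of_par (fc_odd _) (lab_odd c0)
  have a4 : vc (vx c) ≠ lab c0 := ne_of_par (vc_odd _) (lab_odd c0)
  rw [cx_nx, cx_nx]
  by_cases hcc : c = c0
  · subst hcc
    rw [if_pos (rfl : c = c)]
    by_cases hl : lab c ∈ w
    · rw [if_pos hl, if_pos hl, if_pos ⟨rfl, rfl⟩, if_neg (fun h => a3 h.1),
        if_neg (fun h => a3 h.1.symm), if_neg (fun h => vc_ne_fc _ _ h.2)]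
      norm_num
    · rw [if_neg hl, if_neg hl, if_neg (fun h => a3 h.1), if_neg (fun h => vc_ne_fc _ _ h.1.symm),
        if_pos ⟨rfl, rfl⟩, if_neg (fun h => a4 h.1.symm)]
      norm_num
  · rw [if_neg hcc]
    by_cases hl : lab c ∈ w
    · have a5 : ¬ (fc (fi c0) = fc (fi c) ∧ lab c0 = lab c) := by
        rintro ⟨h1, h2⟩
        refine hcc (corner_fi h2.symm ?_)
        have h3 := congrArg Prod.fst h1
        have h4 := congrArg Prod.snd h1
        unfold fc at h3 h4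
        simp only at h3 h4
        exact Prod.ext (by omega) (by omega)
      rw [if_pos hl, if_pos hl, if_neg a5, if_neg (fun h => a1 h.1),
        if_neg (fun h => a3 h.1.symm), if_neg (fun h => vc_ne_fc _ _ h.2)]
      norm_num
    · have a5 : ¬ (lab c0 = lab c ∧ vc (vx c0) = vc (vx c)) := by
        rintro ⟨h2, h1⟩
        refine hcc (corner_vx h2.symm ?_)
        have h3 := congrArg Prod.fst h1
        have h4 := congrArg Prod.snd h1
        unfold vc at h3 h4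
        simp only at h3 h4
        exact Prod.ext (by omega) (by omega)
      rw [if_neg hl, if_neg hl, if_neg (fun h => a1 h.1), if_neg (fun h => vc_ne_fc _ _ h.1.symm),
        if_neg a5, if_neg (fun h => a4 h.1.symm)]
      norm_num

/-- crossing of a strand at a corner, from the vertex to the face -/
lemma chn_vf {w A : Finset (ℤ × ℤ)} {c0 : ℤ × ℤ} (h : lab c0 ∈ A) :
    ∃ L, Chn w A L (vc (vx c0)) (fc (fi c0)) (fun c => if c = c0 then -1 else 0) := by
  have hu := lab_coord c0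
  have e1 : IsUnit4 (lab c0 - vc (vx c0)) := hu.2.2.2.2.2.1
  have e2 : IsUnit4 (fc (fi c0) - lab c0) := hu.2.2.2.2.2.2
  refine ⟨_, (chn_pair e1 e2 h).congr fun c => ?_⟩
  have hc := lab_odd c
  have a1 : fc (fi c0) ≠ lab c := ne_of_par (fc_odd _) hc
  have a2 : vc (vx c0) ≠ lab c := ne_of_par (vc_odd _) hc
  have a3 : fc (fi c) ≠ lab c0 := ne_of_par (fc_odd _) (lab_odd c0)
  have a4 : vc (vx c) ≠ lab c0 := ne_of_par (vc_odd _) (lab_odd c0)
  rw [cx_nx, cx_nx]
  by_cases hcc : c = c0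
  · subst hcc
    rw [if_pos (rfl : c = c)]
    by_cases hl : lab c ∈ w
    · rw [if_pos hl, if_pos hl, if_neg (fun h => vc_ne_fc _ _ h.1), if_neg (fun h => a2 h.1),
        if_neg (fun h => a3 h.1.symm), if_pos ⟨rfl, rfl⟩]
      norm_num
    · rw [if_neg hl, if_neg hl, if_neg (fun h => a2 h.1), if_pos ⟨rfl, rfl⟩,
        if_neg (fun h => vc_ne_fc _ _ h.2.symm), if_neg (fun h => a4 h.1.symm)]
      norm_num
  · rw [if_neg hcc]
    by_cases hl : lab c ∈ w
    · have a5 : ¬ (lab c0 = lab c ∧ fc (fi c0) = fc (fi c)) := by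
        rintro ⟨h2, h1⟩
        refine hcc (corner_fi h2.symm ?_)
        have h3 := congrArg Prod.fst h1
        have h4 := congrArg Prod.snd h1
        unfold fc at h3 h4
        simp only at h3 h4
        exact Prod.ext (by omega) (by omega)
      rw [if_pos hl, if_pos hl, if_neg (fun h => vc_ne_fc _ _ h.1), if_neg (fun h => a2 h.1),
        if_neg (fun h => a3 h.1.symm), if_neg a5]
      norm_num
    · have a5 : ¬ (vc (vx c0) = vc (vx c) ∧ lab c0 = lab c) := by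
        rintro ⟨h1, h2⟩
        refine hcc (corner_vx h2.symm ?_)
        have h3 := congrArg Prod.fst h1
        have h4 := congrArg Prod.snd h1
        unfold vc at h3 h4
        simp only at h3 h4
        exact Prod.ext (by omega) (by omega)
      rw [if_neg hl, if_neg hl, if_neg (fun h => a2 h.1), if_neg a5,
        if_neg (fun h => vc_ne_fc _ _ h.2.symm), if_neg (fun h => a4 h.1.symm)]
      norm_num

/-- change of the winding number along a strand -/
lemma Wd_strand {w : Finset (ℤ × ℤ)} {L : List ((ℤ × ℤ) × (ℤ × ℤ))} (hL : Clo L) (c : ℤ × ℤ) (n : ℕ) :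
    Wd L c - Wd L ((nx w)^[n] c) = ∑ i ∈ range n, Cx L ((nx w)^[i] c) (nx w ((nx w)^[i] c)) := by
  induction n with
  | zero => simp
  | succ n ih =>
    rw [sum_range_succ, ← ih, ← Wd_step hL (nx_unit w _), Function.iterate_succ_apply']
    ring

/-- **Two disjoint strands which cross an annulus in the same direction are not joined in the annulus both
by an open path and by a dual path.** -/
theorem no_two {w A : Finset (ℤ × ℤ)} {c c' : ℤ × ℤ} {n n' s s' : ℕ} (hs : s < n) (hs' : s' < n')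
    (hA : lab ((nx w)^[s] c) ∈ A) (hA' : lab ((nx w)^[s'] c') ∈ A)
    (hv : Co (w ∩ A) (vx ((nx w)^[s] c)) (vx ((nx w)^[s'] c')))
    (hf : Co (du A w) (fi ((nx w)^[s] c)) (fi ((nx w)^[s'] c')))
    (hdis : ∀ i < n, ∀ j < n', (nx w)^[i] c ≠ (nx w)^[j] c')
    (he : ∀ L, Clo L → InA A L → Wd L c = Wd L c' ∧ Wd L ((nx w)^[n] c) = Wd L ((nx w)^[n'] c')) :
    False := by
  obtain ⟨L1, h1⟩ := chn_co hv
  obtain ⟨L2, h2⟩ := chn_vf (w := w) hA'
  obtain ⟨L3, h3⟩ := chn_dco hf.symm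
  obtain ⟨L4, h4⟩ := chn_fv (w := w) hA
  have hC := ((h1.append h2).append h3).append h4
  set L := ((L1 ++ L2) ++ L3) ++ L4 with hLdef
  have hclo : Clo L := ⟨hC.unit, fun g => by rw [hC.sum g, sub_self]⟩
  obtain ⟨e1, e2⟩ := he L hclo hC.inA
  have s1 := Wd_strand (w := w) hclo c n
  have s2 := Wd_strand (w := w) hclo c' n'
  have t1 : (1 : ℤ) ≤ ∑ i ∈ range n, Cx L ((nx w)^[i] c) (nx w ((nx w)^[i] c)) := by
    have hnn : ∀ i ∈ range n, 0 ≤ Cx L ((nx w)^[i] c) (nx w ((nx w)^[i] c)) := by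
      intro i hi
      rw [hC.crs]
      rw [if_neg (hdis i (mem_range.1 hi) s' hs')]
      split_ifs <;> norm_num
    calc (1 : ℤ) ≤ Cx L ((nx w)^[s] c) (nx w ((nx w)^[s] c)) := by
          rw [hC.crs]
          simp only
          rw [if_neg (hdis s hs s' hs')]
          simp
      _ ≤ _ := single_le_sum (f := fun i => Cx L ((nx w)^[i] c) (nx w ((nx w)^[i] c))) hnn
          (mem_range.2 hs)
  have t2 : ∑ i ∈ range n', Cx L ((nx w)^[i] c') (nx w ((nx w)^[i] c')) ≤ -1 := by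
    have hnn : ∀ i ∈ range n', 0 ≤ -Cx L ((nx w)^[i] c') (nx w ((nx w)^[i] c')) := by
      intro i hi
      rw [hC.crs]
      have h5 : (nx w)^[i] c' ≠ (nx w)^[s] c := (hdis s hs i (mem_range.1 hi)).symm
      rw [if_neg h5]
      split_ifs <;> norm_num
    have h6 : (1 : ℤ) ≤ ∑ i ∈ range n', -Cx L ((nx w)^[i] c') (nx w ((nx w)^[i] c')) := by
      calc (1 : ℤ) ≤ -Cx L ((nx w)^[s'] c') (nx w ((nx w)^[s'] c')) := by
            rw [hC.crs]
            simp only
            have h5 : (nx w)^[s'] c' ≠ (nx w)^[s] c := (hdis s hs s' hs').symm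
            rw [if_neg h5]
            simp
        _ ≤ _ := single_le_sum (f := fun i => -Cx L ((nx w)^[i] c') (nx w ((nx w)^[i] c'))) hnn
            (mem_range.2 hs')
    rw [sum_neg_distrib] at h6
    linarith
  linarith

/-! ### Geometry of the annulus -/

lemma cells_h (p : ℤ × ℤ) : LC p (p.1 + 1, p.2) = p ∧ RC p (p.1 + 1, p.2) = (p.1, p.2 - 1) := by
  unfold LC RC
  simp only
  exact ⟨if_pos trivial, if_pos trivial⟩

lemma const_line {F : ℤ → ℤ} {m M : ℤ} (h : ∀ i, m ≤ i → i + 1 ≤ M → F i = F (i + 1)) {i j : ℤ}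
    (hi : m ≤ i) (hij : i ≤ j) (hj : j ≤ M) : F i = F j := by
  obtain ⟨n, rfl⟩ := Int.le.dest hij
  clear hij
  induction n with
  | zero => simp
  | succ n ih =>
    rw [ih (by push_cast at hj ⊢; omega)]
    have := h (i + n) (by omega) (by push_cast at hj ⊢; omega)
    rw [this]
    congr 1
    push_cast
    ring

lemma const_line' {F : ℤ → ℤ} {m M : ℤ} (h : ∀ i, m ≤ i → i + 1 ≤ M → F i = F (i + 1)) {i j : ℤ}
    (hi : m ≤ i) (hi' : i ≤ M) (hj : m ≤ j) (hj' : j ≤ M) : F i = F j := by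
  rcases le_total i j with h1 | h1
  · exact const_line h hi h1 hj'
  · exact (const_line h hj h1 hi').symm

/-- a point of the hole -/
def inn (x : ℤ × ℤ) (a : ℤ) (p : ℤ × ℤ) : Prop :=
  (2 * x.1 - 2 * a + 1 ≤ p.1 ∧ p.1 ≤ 2 * x.1 + 2 * a) ∧
    (2 * x.2 - 2 * a + 1 ≤ p.2 ∧ p.2 ≤ 2 * x.2 + 2 * a)

/-- a point outside -/
def far (x : ℤ × ℤ) (b : ℤ) (p : ℤ × ℤ) : Prop :=
  p.1 ≤ 2 * x.1 - 2 * b - 1 ∨ 2 * x.1 + 2 * b + 2 ≤ p.1 ∨ p.2 ≤ 2 * x.2 - 2 * b - 1 ∨
    2 * x.2 + 2 * b + 2 ≤ p.2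

section

variable {x : ℤ × ℤ} {a b : ℤ} {L : List ((ℤ × ℤ) × (ℤ × ℤ))}

lemma mem_ann {l : ℤ × ℤ} : l ∈ Bq x b \ Bq x a ↔
    ((2 * (x.1 - b) ≤ l.1 ∧ l.1 ≤ 2 * (x.1 + b)) ∧ (2 * (x.2 - b) ≤ l.2 ∧ l.2 ≤ 2 * (x.2 + b)) ∧
      (l.1 + l.2) % 2 = 1) ∧ ¬ ((2 * (x.1 - a) ≤ l.1 ∧ l.1 ≤ 2 * (x.1 + a)) ∧
      (2 * (x.2 - a) ≤ l.2 ∧ l.2 ≤ 2 * (x.2 + a)) ∧ (l.1 + l.2) % 2 = 1) := by
  rw [mem_sdiff, mem_Bq, mem_Bq]

lemma unit_h (p : ℤ × ℤ) : IsUnit4 ((p.1 + 1, p.2) - p) := by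
  unfold IsUnit4
  left
  ext <;> simp

lemma unit_v (p : ℤ × ℤ) : IsUnit4 ((p.1, p.2 + 1) - p) := by
  unfold IsUnit4
  right; left
  ext <;> simp

lemma hole_const (hL : Clo L) (hA : InA (Bq x b \ Bq x a) L) {p q : ℤ × ℤ} (hp : inn x a p)
    (hq : inn x a q) : Wd L p = Wd L q := by
  obtain ⟨p1, p2⟩ := p
  obtain ⟨q1, q2⟩ := q
  unfold inn at hp hq
  simp only at hp hq
  have e1 : Wd L (p1, p2) = Wd L (q1, p2) := by
    refine const_line' (F := fun i => Wd L (i, p2)) (m := 2 * x.1 - 2 * a + 1)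
      (M := 2 * x.1 + 2 * a) ?_ hp.1.1 hp.1.2 hq.1.1 hq.1.2
    intro i h1 h2
    have hu := unit_h (i, p2)
    have hc := cells_h (i, p2)
    simp only at hu hc
    refine Wd_const hL hA hu ?_ ?_
    · rw [hc.1, mem_ann]; simp only; omega
    · rw [hc.2, mem_ann]; simp only; omega
  have e2 : Wd L (q1, p2) = Wd L (q1, q2) := by
    refine const_line' (F := fun j => Wd L (q1, j)) (m := 2 * x.2 - 2 * a + 1)
      (M := 2 * x.2 + 2 * a) ?_ hp.2.1 hp.2.2 hq.2.1 hq.2.2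
    intro j h1 h2
    have hu := unit_v (q1, j)
    have hc := cells_v (q1, j)
    simp only at hu hc
    refine Wd_const hL hA hu ?_ ?_
    · rw [hc.1, mem_ann]; simp only; omega
    · rw [hc.2, mem_ann]; simp only; omega
  rw [e1, e2]

lemma ry_zero {A : Finset (ℤ × ℤ)} (hA : InA A L) {p : ℤ × ℤ}
    (h : ∀ l ∈ A, l.2 + 1 < p.2 ∨ p.2 < l.2 ∨ l.1 < p.1) : Wd L p = 0 := by
  unfold Wd
  have h1 : ∀ st ∈ L, ry st.1 st.2 p = 0 := by
    intro st hst
    have h3 := hA st hst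
    unfold ry
    rw [if_neg, if_neg]
    · rintro ⟨h4, h5, h6, h7⟩
      rcases h3 with h3 | h3
      · have := h _ h3; omega
      · have := h _ h3; omega
    · rintro ⟨h4, h5, h6, h7⟩
      rcases h3 with h3 | h3
      · have := h _ h3; omega
      · have := h _ h3; omega
  rw [List.map_congr_left h1]
  simp

lemma far_zero (hL : Clo L) (hA : InA (Bq x b \ Bq x a) L) {p : ℤ × ℤ} (hp : far x b p) :
    Wd L p = 0 := by
  obtain ⟨p1, p2⟩ := p
  unfold far at hp
  simp only at hp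
  rcases hp with hp | hp | hp | hp
  · have e1 : Wd L (p1, p2) = Wd L (p1, max p2 (2 * x.2 + 2 * b + 2)) := by
      refine const_line' (F := fun j => Wd L (p1, j)) (m := p2)
        (M := max p2 (2 * x.2 + 2 * b + 2)) ?_ le_rfl (le_max_left _ _) (le_max_left _ _) le_rfl
      intro j h1 h2
      have hu := unit_v (p1, j)
      have hc := cells_v (p1, j)
      simp only at hu hc
      refine Wd_const hL hA hu ?_ ?_
      · rw [hc.1, mem_ann]; simp only; omega
      · rw [hc.2, mem_ann]; simp only; omega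
    rw [e1]
    refine ry_zero hA fun l hl => ?_
    rw [mem_ann] at hl
    have := le_max_right p2 (2 * x.2 + 2 * b + 2)
    simp only
    omega
  · refine ry_zero hA fun l hl => ?_
    rw [mem_ann] at hl
    simp only
    omega
  · refine ry_zero hA fun l hl => ?_
    rw [mem_ann] at hl
    simp only
    omega
  · refine ry_zero hA fun l hl => ?_
    rw [mem_ann] at hl
    simp only
    omega

lemma tile_const (hL : Clo L) (hA : InA (Bq x b \ Bq x a) L) {T : ℤ × ℤ}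
    (hT : T ∉ Bq x b \ Bq x a) (hodd : (T.1 + T.2) % 2 = 1) {p : ℤ × ℤ}
    (hp : p = T ∨ p = (T.1 + 1, T.2) ∨ p = (T.1, T.2 + 1) ∨ p = (T.1 + 1, T.2 + 1)) :
    Wd L p = Wd L T := by
  have e1 : Wd L T = Wd L (T.1 + 1, T.2) := by
    refine Wd_const hL hA (unit_h T) ?_ ?_
    · rw [(cells_h T).1]; exact hT
    · rw [(cells_h T).2, mem_ann]; simp only; omega
  have e2 : Wd L T = Wd L (T.1, T.2 + 1) := by
    refine Wd_const hL hA (unit_v T) ?_ ?_
    · rw [(cells_v T).1, mem_ann]; simp only; omega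
    · rw [(cells_v T).2]; exact hT
  have e3 : Wd L (T.1 + 1, T.2) = Wd L (T.1 + 1, T.2 + 1) := by
    have hu := unit_v (T.1 + 1, T.2)
    have hc := cells_v (T.1 + 1, T.2)
    simp only at hu hc
    refine Wd_const hL hA hu ?_ ?_
    · rw [hc.1, show T.1 + 1 - 1 = T.1 by ring]; exact hT
    · rw [hc.2, mem_ann]; simp only; omega
  rcases hp with rfl | rfl | rfl | rfl
  · rfl
  · exact e1.symm
  · exact e2.symm
  · rw [← e3, ← e1]

lemma plab_coord (c : ℤ × ℤ) :
    ((plab c).1 + (plab c).2) % 2 = 1 ∧ IsUnit4 (plab c - vc (vx c)) ∧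
      IsUnit4 (fc (fi c) - plab c) := by
  have h1 : c.1 % 2 = 0 ∨ c.1 % 2 = 1 := by omega
  have h2 : c.2 % 2 = 0 ∨ c.2 % 2 = 1 := by omega
  unfold plab IsUnit4 vc vx fc fi
  rcases h1 with h1 | h1 <;> rcases h2 with h2 | h2 <;>
    simp only [h1, h2, if_true, if_false, one_ne_zero, Prod.ext_iff, Prod.fst_sub, Prod.snd_sub] <;>
    omega

lemma outer_zero (hL : Clo L) (hA : InA (Bq x b \ Bq x a) L) {c : ℤ × ℤ} (hc : plab c ∉ Bq x b) :
    Wd L c = 0 := by
  have hodd := (plab_coord c).1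
  have hT : plab c ∉ Bq x b \ Bq x a := fun h => hc (mem_sdiff.1 h).1
  have h1 := (corners_iff hodd).1 (Or.inr rfl : lab c = plab c ∨ plab c = plab c)
  rw [tile_const hL hA hT hodd h1]
  rw [mem_Bq] at hc
  set T := plab c with hTd
  by_cases h2 : T.1 ≤ 2 * x.1 - 2 * b - 1
  · exact far_zero hL hA (Or.inl h2)
  by_cases h3 : T.2 ≤ 2 * x.2 - 2 * b - 1
  · exact far_zero hL hA (Or.inr (Or.inr (Or.inl h3)))
  rw [← tile_const hL hA hT hodd (p := (T.1 + 1, T.2 + 1)) (Or.inr (Or.inr (Or.inr rfl)))]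
  refine far_zero hL hA ?_
  unfold far
  simp only
  omega

lemma inner_const (hL : Clo L) (hA : InA (Bq x b \ Bq x a) L) (ha : 1 ≤ a) {c : ℤ × ℤ}
    (hc : lab c ∈ Bq x a) : Wd L c = Wd L (2 * x.1, 2 * x.2) := by
  have hodd := lab_odd c
  have hT : lab c ∉ Bq x b \ Bq x a := fun h => (mem_sdiff.1 h).2 hc
  have h1 := (corners_iff hodd).1 (Or.inl rfl : lab c = lab c ∨ plab c = lab c)
  rw [tile_const hL hA hT hodd h1]
  rw [mem_Bq] at hc
  set T := lab c with hTd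
  have hq : inn x a (2 * x.1, 2 * x.2) := by unfold inn; simp only; omega
  by_cases h2 : T.1 = 2 * x.1 - 2 * a <;> by_cases h3 : T.2 = 2 * x.2 - 2 * a
  · rw [← tile_const hL hA hT hodd (p := (T.1 + 1, T.2 + 1)) (Or.inr (Or.inr (Or.inr rfl)))]
    refine hole_const hL hA ?_ hq
    unfold inn; simp only; omega
  · rw [← tile_const hL hA hT hodd (p := (T.1 + 1, T.2)) (Or.inr (Or.inl rfl))]
    refine hole_const hL hA ?_ hq
    unfold inn; simp only; omega
  · rw [← tile_const hL hA hT hodd (p := (T.1, T.2 + 1)) (Or.inr (Or.inr (Or.inl rfl)))]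
    refine hole_const hL hA ?_ hq
    unfold inn; simp only; omega
  · refine hole_const hL hA ?_ hq
    unfold inn; omega

end

/-! ### Crossings of a smaller annulus -/

/-- last exit from the box of radius `r` -/
lemma exit_last {x : ℤ × ℤ} {r : ℤ} {ω : Finset (ℤ × ℤ)} {p q : ℤ × ℤ} (h : Co ω p q)
    (hp : |p.1 - x.1| ≤ r ∧ |p.2 - x.2| ≤ r) :
    ∃ u : ℤ × ℤ, (|u.1 - x.1| ≤ r ∧ |u.2 - x.2| ≤ r) ∧ Co (ω \ Bq x r) u q ∧ Co ω p u := by
  induction h with
  | refl => exact ⟨p, hp, Co.refl _ _, Co.refl _ _⟩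
  | @tail b c hab hbc ih =>
    obtain ⟨u, hu1, hu3, hu4⟩ := ih
    by_cases hc : |c.1 - x.1| ≤ r ∧ |c.2 - x.2| ≤ r
    · exact ⟨c, hc, Co.refl _ _, Relation.ReflTransGen.tail hab hbc⟩
    · refine ⟨u, hu1, Relation.ReflTransGen.tail hu3 ⟨hbc.1, ?_⟩, hu4⟩
      rw [mem_sdiff]
      refine ⟨hbc.2, fun h1 => hc ?_⟩
      have h2 := mem_Bq.1 h1
      have h3 := unit_cases hbc.1
      simp only [Prod.fst_add, Prod.snd_add] at h2
      rw [abs_le, abs_le]
      omega

/-- first exit from the box of radius `R` -/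
lemma exit_first {x : ℤ × ℤ} {R : ℤ} {ω : Finset (ℤ × ℤ)} {p q : ℤ × ℤ} (h : Co ω p q)
    (hp : |p.1 - x.1| < R ∧ |p.2 - x.2| < R) :
    (∃ v : ℤ × ℤ, (R ≤ |v.1 - x.1| ∨ R ≤ |v.2 - x.2|) ∧ Co (ω ∩ Bq x R) p v) ∨
      (Co (ω ∩ Bq x R) p q ∧ |q.1 - x.1| < R ∧ |q.2 - x.2| < R) := by
  induction h with
  | refl => exact Or.inr ⟨Co.refl _ _, hp⟩
  | @tail b c hab hbc ih =>
    rcases ih with h1 | ⟨h1, h2⟩
    · exact Or.inl h1
    · have h3 := unit_cases hbc.1
      have h4 : Co (ω ∩ Bq x R) p c := by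
        refine Relation.ReflTransGen.tail h1 ⟨hbc.1, ?_⟩
        refine mem_inter.2 ⟨hbc.2, ?_⟩
        rw [mem_Bq]
        simp only [Prod.fst_add, Prod.snd_add]
        rw [abs_lt, abs_lt] at h2
        omega
      by_cases hc : |c.1 - x.1| < R ∧ |c.2 - x.2| < R
      · exact Or.inr ⟨h4, hc⟩
      · refine Or.inl ⟨c, ?_, h4⟩
        rw [not_and_or, not_lt, not_lt] at hc
        exact hc

/-- a crossing contains a crossing of the annulus -/
lemma cross_cut {x : ℤ × ℤ} {r R : ℤ} {ω : Finset (ℤ × ℤ)} {p q : ℤ × ℤ} (hr : r < R)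
    (h : Co ω p q) (hp : |p.1 - x.1| ≤ r ∧ |p.2 - x.2| ≤ r)
    (hq : R ≤ |q.1 - x.1| ∨ R ≤ |q.2 - x.2|) :
    ∃ u v : ℤ × ℤ, (|u.1 - x.1| ≤ r ∧ |u.2 - x.2| ≤ r) ∧ (R ≤ |v.1 - x.1| ∨ R ≤ |v.2 - x.2|) ∧
      Co (ω ∩ An x r R) u v ∧ Co ω p u := by
  rcases exit_first (x := x) (R := R) h ⟨by omega, by omega⟩ with ⟨v, hv1, hv2⟩ | ⟨-, h2⟩
  · obtain ⟨u, hu1, hu2, hu3⟩ := exit_last (r := r) hv2 hp
    refine ⟨u, v, hu1, hv1, ?_, hu3.mono inter_subset_left⟩
    refine hu2.mono ?_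
    intro l hl
    rw [mem_sdiff, mem_inter] at hl
    rw [mem_inter, mem_An]
    exact ⟨hl.1.1, hl.1.2, hl.2⟩
  · exfalso; omega

/-- two crossings are joined if there are no four arms -/
lemma joined {x : ℤ × ℤ} {r R : ℤ} {ω ξ : Finset (ℤ × ℤ)} (hr : r < R)
    (h1 : ξ ∩ An x r R ⊆ ω ∩ An x r R) (h2 : ω ∩ An x r R ⊆ ξ) (hF : ¬ Four x r R ω)
    {p q p' q' : ℤ × ℤ} (h : Co ξ p q) (hp : |p.1 - x.1| ≤ r ∧ |p.2 - x.2| ≤ r)
    (hq : R ≤ |q.1 - x.1| ∨ R ≤ |q.2 - x.2|) (h' : Co ξ p' q')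
    (hp' : |p'.1 - x.1| ≤ r ∧ |p'.2 - x.2| ≤ r) (hq' : R ≤ |q'.1 - x.1| ∨ R ≤ |q'.2 - x.2|) :
    Co ξ q q' := by
  obtain ⟨u, v, a1, a2, a3, a4⟩ := cross_cut hr h hp hq
  obtain ⟨u', v', b1, b2, b3, b4⟩ := cross_cut hr h' hp' hq'
  have h5 : Co (ω ∩ An x r R) u u' := by
    by_contra h6
    exact hF ⟨u, u', v, v', a1, b1, a2, b2, a3.mono h1, b3.mono h1, h6⟩
  exact ((h.symm.trans a4).trans (h5.mono h2)).trans (b4.symm.trans h')

/-! ### The strand -/

lemma strand_co {w A : Finset (ℤ × ℤ)} {c : ℤ × ℤ} {n : ℕ}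
    (h : ∀ i < n, lab ((nx w)^[i] c) ∈ A) : ∀ i ≤ n,
    Co (w ∩ A) (vx c) (vx ((nx w)^[i] c)) ∧ Co (du A w) (fi c) (fi ((nx w)^[i] c)) := by
  intro i
  induction i with
  | zero => intro _; exact ⟨Co.refl _ _, Co.refl _ _⟩
  | succ i ih =>
    intro hi
    obtain ⟨h1, h2⟩ := ih (by omega)
    have h3 := h i (by omega)
    rw [Function.iterate_succ_apply']
    set z := (nx w)^[i] c with hz
    unfold nx
    split_ifs with hω
    · obtain ⟨h4, h5⟩ := vx_nxO z
      refine ⟨Relation.ReflTransGen.tail h1 ⟨h4, ?_⟩, ?_⟩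
      · rw [h5]; exact mem_inter.2 ⟨hω, h3⟩
      · rw [StrandAux.fi_nxO]; exact h2
    · obtain ⟨h4, h5⟩ := StrandAux.fi_nxC z
      refine ⟨?_, Relation.ReflTransGen.tail h2 ⟨h4, ?_⟩⟩
      · rw [StrandAux.vx_nxC]; exact h1
      · rw [h5]; exact StrandAux.mem_du h3 hω

/-- **The far entrance is unique if there are no four arms.** -/
theorem far_unique {x : ℤ × ℤ} {a b : ℤ} {E w : Finset (ℤ × ℤ)} (ha : 1 ≤ a) (hab : a + 3 ≤ b)
    (hE : Bq x b ⊆ E) (hF : ¬ Four x (a + 1) (b - 1) w) (hF' : ¬ Four x (a + 1) (b - 1) (du E w))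
    {z z' : ℤ × ℤ} (hz : Pool.Agent.Q1.M6b.Gd.FarIn (Bq x a) (Bq x b) w z)
    (hz' : Pool.Agent.Q1.M6b.Gd.FarIn (Bq x a) (Bq x b) w z') : z = z' := by
  by_contra hne
  obtain ⟨g1, c, n, g2, g3, g4⟩ := hz
  obtain ⟨k1, c', n', k2, k3, k4⟩ := hz'
  set A := Bq x b \ Bq x a with hAd
  -- positions of the ends
  have hpos : ∀ {z : ℤ × ℤ}, lab z ∈ Bq x a →
      (|(vx z).1 - x.1| ≤ a + 1 ∧ |(vx z).2 - x.2| ≤ a + 1) ∧
      (|(fi z).1 - x.1| ≤ a + 1 ∧ |(fi z).2 - x.2| ≤ a + 1) := by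
    intro z hz
    have h1 := lab_coord z
    have h2 := unit_cases h1.2.2.2.2.2.1
    have h3 := unit_cases h1.2.2.2.2.2.2
    rw [mem_Bq] at hz
    unfold vc at h2
    unfold fc at h3
    simp only at h2 h3
    rw [abs_le, abs_le, abs_le, abs_le]
    omega
  have hpos' : ∀ {z : ℤ × ℤ}, plab z ∉ Bq x b →
      (b - 1 ≤ |(vx z).1 - x.1| ∨ b - 1 ≤ |(vx z).2 - x.2|) ∧
      (b - 1 ≤ |(fi z).1 - x.1| ∨ b - 1 ≤ |(fi z).2 - x.2|) := by
    intro z hz
    have h1 := plab_coord z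
    have h2 := unit_cases h1.2.1
    have h3 := unit_cases h1.2.2
    rw [mem_Bq] at hz
    unfold vc at h2
    unfold fc at h3
    simp only at h2 h3
    have h4 := h1.1
    rw [le_abs, le_abs, le_abs, le_abs]
    omega
  have hn : ∀ {c z : ℤ × ℤ} {n : ℕ}, lab z ∈ Bq x a → plab c ∉ Bq x b → (nx w)^[n] c = z → 0 < n := by
    intro c z n h1 h2 h3
    rcases Nat.eq_zero_or_pos n with h0 | h0
    · exfalso
      subst h0
      rw [Function.iterate_zero_apply] at h3
      subst h3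
      have h4 := lab_coord c
      have h5 := plab_coord c
      have h6 := unit_cases h4.2.2.2.2.2.1
      have h7 := unit_cases h5.2.1
      rw [mem_Bq] at h1 h2
      omega
    · exact h0
  have n0 := hn g1 g2 g3
  have n0' := hn k1 k2 k3
  have s1 := strand_co g4
  have s2 := strand_co k4
  -- both colours are joined
  have hsubA : An x (a + 1) (b - 1) ⊆ A := by
    intro l hl
    rw [mem_An, mem_Bq, mem_Bq] at hl
    rw [hAd, mem_ann]
    omega
  have hv : Co (w ∩ A) (vx c) (vx c') := by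
    refine joined (r := a + 1) (R := b - 1) (by omega) ?_ ?_ hF (s1 n le_rfl).1.symm
      ?_ (hpos' g2).1 (s2 n' le_rfl).1.symm ?_ (hpos' k2).1
    · intro l hl
      rw [mem_inter, mem_inter] at hl
      exact mem_inter.2 ⟨hl.1.1, hl.2⟩
    · intro l hl
      rw [mem_inter] at hl
      exact mem_inter.2 ⟨hl.1, hsubA hl.2⟩
    · rw [g3]; exact (hpos g1).1
    · rw [k3]; exact (hpos k1).1
  have hf : Co (du A w) (fi c) (fi c') := by
    refine joined (r := a + 1) (R := b - 1) (by omega) ?_ ?_ hF' (s1 n le_rfl).2.symm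
      ?_ (hpos' g2).2 (s2 n' le_rfl).2.symm ?_ (hpos' k2).2
    · intro l hl
      rw [mem_inter] at hl ⊢
      refine ⟨?_, hl.2⟩
      have h1 := hl.1
      unfold du at h1 ⊢
      rw [mem_map] at h1 ⊢
      obtain ⟨e, he1, he2⟩ := h1
      rw [mem_sdiff] at he1
      exact ⟨e, mem_sdiff.2 ⟨hE (mem_sdiff.1 he1.1).1, he1.2⟩, he2⟩
    · intro l hl
      rw [mem_inter, mem_An, mem_Bq, mem_Bq] at hl
      obtain ⟨h1, h2⟩ := hl
      unfold du at h1 ⊢
      rw [mem_map] at h1 ⊢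
      obtain ⟨e, he1, he2⟩ := h1
      rw [mem_sdiff] at he1
      refine ⟨e, mem_sdiff.2 ⟨?_, he1.2⟩, he2⟩
      have e1 : l.1 = e.1 + 1 := by rw [← he2]; rfl
      have e2 : l.2 = e.2 + 1 := by rw [← he2]; rfl
      rw [hAd, mem_ann]
      omega
    · rw [g3]; exact (hpos g1).2
    · rw [k3]; exact (hpos k1).2
  have hdis : ∀ i < n, ∀ j < n', (nx w)^[i] c ≠ (nx w)^[j] c' := by
    intro i hi j hj heq
    have hstep : ∀ k, (nx w)^[i + k] c = (nx w)^[j + k] c' := by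
      intro k
      rw [add_comm i, add_comm j, Function.iterate_add_apply, Function.iterate_add_apply, heq]
    rcases lt_trichotomy (n - i) (n' - j) with h | h | h
    · have h1 := hstep (n - i)
      rw [show i + (n - i) = n by omega, g3] at h1
      have h2 := k4 (j + (n - i)) (by omega)
      rw [← h1] at h2
      exact (mem_sdiff.1 h2).2 g1
    · have h1 := hstep (n - i)
      rw [show i + (n - i) = n by omega, show j + (n - i) = n' by omega, g3, k3] at h1
      exact hne h1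
    · have h1 := hstep (n' - j)
      rw [show j + (n' - j) = n' by omega, k3] at h1
      have h2 := g4 (i + (n' - j)) (by omega)
      rw [h1] at h2
      exact (mem_sdiff.1 h2).2 k1
  refine no_two (w := w) (A := A) (c := c) (c' := c') (s := 0) (s' := 0) n0 n0' (g4 0 n0) (k4 0 n0')
    hv hf hdis ?_
  intro L hL hLA
  refine ⟨?_, ?_⟩
  · rw [outer_zero hL hLA g2, outer_zero hL hLA k2]
  · rw [g3, k3, inner_const hL hLA ha g1, inner_const hL hLA ha k1]

end Pool.Agent.H65.G1
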