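import Mathlib
import Pool.Agent.H65.G1.Tips
import Pool.Agent.Q1.M6b.BoxProb

set_option autoImplicit false
open Finset

/-! A stopping interval which is not bad has at most one far entrance. -/

namespace Pool.Agent.H65.G1

open Pool.Agent.H75.Perc Pool.Agent.H75.TwoArm Pool.Agent.H47.NC Pool.Agent.H65.Four2
  Pool.Agent.Q1.M6b.Gd

/-- **J3.** If the interval `(l, y)` is not bad then the far entrance of its boxes is unique. -/
theorem far_unique_box {b : ℤ} {z : ℤ → ℤ × ℤ} {E w : Finset (ℤ × ℤ)} {l : ℕ} {y : ℤ} (hb : 6 ≤ b)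
    (hE : OutB b z l y ⊆ E) (hF : ¬ badB b z E l y w) {c c' : ℤ × ℤ}
    (h : FarIn (InB b z l y) (OutB b z l y) w c) (h' : FarIn (InB b z l y) (OutB b z l y) w c') :
    c = c' := by
  unfold badB at hF
  rw [not_or] at hF
  have h1 : 1 ≤ b ^ l := one_le_pow₀ (by omega)
  have h2 : b ^ (l + 1) = b * b ^ l := by rw [pow_succ, mul_comm]
  unfold InB OutB at h h'
  unfold OutB at hE
  refine far_unique (x := ctr (z (b ^ l * y))) (a := 4 * b ^ l) (b := b ^ (l + 1) + 1) (E := E)
    (by omega) ?_ hE ?_ ?_ h h'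
  · rw [h2]; nlinarith
  · rw [add_sub_cancel_right]; exact hF.1
  · rw [add_sub_cancel_right]; exact hF.2

end Pool.Agent.H65.G1
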